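import Mathlib
import Pool.Agent.H958.RO.Stm

set_option autoImplicit false

namespace Pool.Agent.H695.RO.Hand

open Finset
open scoped Classical
open Pool.Agent.W830.RD (Om gle Pr Rlz)
open Pool.Agent.H958.RO

/-- adjacency indicator -/
noncomputable def r {n : ℕ} (E : Finset (Fin n × Fin n)) (v w : Fin n) : ℕ :=
  if (GG E).Adj v w then 1 else 0

/-- edge indicator -/
noncomputable def s {n : ℕ} (E : Finset (Fin n × Fin n)) (v w : Fin n) : ℕ :=
  if (v, w) ∈ E then 1 else 0

theorem dg_eq {n : ℕ} (E : Finset (Fin n × Fin n)) (S : Finset (Fin n)) (v : Fin n) :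
    dg E S v = ∑ w ∈ S, r E v w := by
  unfold dg r
  rw [Finset.card_filter]

theorem r_symm {n : ℕ} (E : Finset (Fin n × Fin n)) (v w : Fin n) : r E v w = r E w v := by
  unfold r
  rw [(GG E).adj_comm]

theorem r_eq {n : ℕ} (E : Finset (Fin n × Fin n)) (hE : E ⊆ Om n) (v w : Fin n) :
    r E v w = s E v w + s E w v := by
  have h1 : ∀ a b : Fin n, (a, b) ∈ E → a < b := by
    intro a b h
    have := hE h
    simpa [Om] using this
  unfold r s
  by_cases hvw : (v, w) ∈ E
  · have hlt := h1 v w hvw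
    have hnot : (w, v) ∉ E := fun h => absurd (h1 w v h) (not_lt.mpr hlt.le)
    have hadj : (GG E).Adj v w := ⟨hlt.ne, Or.inl hvw⟩
    rw [if_pos hadj, if_pos hvw, if_neg hnot]
  · by_cases hwv : (w, v) ∈ E
    · have hlt := h1 w v hwv
      have hadj : (GG E).Adj v w := ⟨hlt.ne', Or.inr hwv⟩
      rw [if_pos hadj, if_neg hvw, if_pos hwv]
    · have hadj : ¬ (GG E).Adj v w := by
        intro h
        rcases h.2 with h | h
        · exact hvw h
        · exact hwv h
      rw [if_neg hadj, if_neg hvw, if_neg hwv]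

theorem sum_s {n : ℕ} (E : Finset (Fin n × Fin n)) (A : Finset (Fin n)) :
    ∑ v ∈ A, ∑ w ∈ A, s E v w = (res E A).card := by
  unfold s
  rw [← Finset.sum_product' A A (fun v w => if (v, w) ∈ E then 1 else 0)]
  have h1 : ∑ x ∈ A ×ˢ A, (if (x.1, x.2) ∈ E then 1 else 0) =
      ((A ×ˢ A).filter (fun x => x ∈ E)).card := by
    rw [Finset.card_filter]
  rw [h1]
  congr 1
  ext e
  simp only [Finset.mem_filter, Finset.mem_product, res]
  tauto

theorem main : S_HAND := by
  intro n E S A hE hA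
  have h1 : ∀ v, dg E S v = dg E A v + ∑ w ∈ S \ A, r E v w := by
    intro v
    rw [dg_eq, dg_eq, add_comm, Finset.sum_sdiff hA]
  have h2 : ∑ v ∈ A, dg E A v = 2 * (res E A).card := by
    have e1 : ∀ v, dg E A v = ∑ w ∈ A, s E v w + ∑ w ∈ A, s E w v := by
      intro v
      rw [dg_eq, ← Finset.sum_add_distrib]
      exact Finset.sum_congr rfl (fun w _ => r_eq E hE v w)
    rw [Finset.sum_congr rfl (fun v _ => e1 v), Finset.sum_add_distrib, sum_s,
      Finset.sum_comm, sum_s]
    ring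
  have h3 : ∑ v ∈ A, ∑ w ∈ S \ A, r E v w = ∑ v ∈ S \ A, dg E A v := by
    rw [Finset.sum_comm]
    refine Finset.sum_congr rfl (fun w _ => ?_)
    rw [dg_eq]
    exact Finset.sum_congr rfl (fun v _ => r_symm E v w)
  rw [Finset.sum_congr rfl (fun v _ => h1 v), Finset.sum_add_distrib, h2, h3]

end Pool.Agent.H695.RO.Hand

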